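import Mathlib

set_option autoImplicit false

/-!
# The least size of a polyomino with every row and column disconnected

The cell `[a,a+1] × [b,b+1]` is represented by the pair `(a,b)`.
-/

namespace Pool.Agent.Results.MP_ae2f9f_co.LeastSize

/-- Cells of the square grid. -/
abbrev Cell := ℤ × ℤ

/-- Edge-adjacency of cells. -/
def grid : SimpleGraph Cell where
  Adj u v := (u.1 = v.1 ∧ |u.2 - v.2| = 1) ∨ (u.2 = v.2 ∧ |u.1 - v.1| = 1)
  symm := by
    constructor
    intro u v h
    rcases h with ⟨h1, h2⟩ | ⟨h1, h2⟩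
    · left; exact ⟨h1.symm, by rw [abs_sub_comm]; exact h2⟩
    · right; exact ⟨h1.symm, by rw [abs_sub_comm]; exact h2⟩
  loopless := by
    constructor
    intro u h
    simp at h

/-- A polyomino: a finite set of cells, connected under edge-adjacency. -/
def IsPolyomino (P : Finset Cell) : Prop := (grid.induce (P : Set Cell)).Connected

/-- The set of horizontal coordinates of the cells of `P` at height `b`. -/
def row (P : Finset Cell) (b : ℤ) : Set ℤ := {a | (a, b) ∈ P}

/-- The set of vertical coordinates of the cells of `P` in the column `a`. -/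
def column (P : Finset Cell) (a : ℤ) : Set ℤ := {b | (a, b) ∈ P}

/-- Property (S): no nonempty row and no nonempty column is an interval of integers. -/
def PropertyS (P : Finset Cell) : Prop :=
  (∀ b, (row P b).Nonempty → ¬ (row P b).OrdConnected) ∧
    (∀ a, (column P a).Nonempty → ¬ (column P a).OrdConnected)

/-! ### Gaps -/

theorem gap_of {s : Set ℤ} (h : ¬ s.OrdConnected) :
    ∃ a c b, a ∈ s ∧ c ∉ s ∧ b ∈ s ∧ a < c ∧ c < b := by
  rw [Set.ordConnected_def] at h
  push Not at h
  obtain ⟨a, ha, b, hb, hab⟩ := h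
  rw [Set.not_subset] at hab
  obtain ⟨c, ⟨h1, h2⟩, hc⟩ := hab
  refine ⟨a, c, b, ha, hc, hb, ?_, ?_⟩
  · rcases h1.eq_or_lt with h | h
    · subst h; exact absurd ha hc
    · exact h
  · rcases h2.eq_or_lt with h | h
    · subst h; exact absurd hb hc
    · exact h

/-- In a finite set of integers that is not an interval at least two elements have no successor
in the set. -/
theorem two_ends (s : Finset ℤ) (h : ¬ (s : Set ℤ).OrdConnected) :
    2 ≤ (s.filter (fun a => a + 1 ∉ s)).card := by
  obtain ⟨a, c, b, ha, hc, hb, h1, h2⟩ := gap_of h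
  simp only [Finset.mem_coe] at ha hc hb
  -- the last element before the gap, and the last element
  have hne : (s.filter (fun x => x < c)).Nonempty := ⟨a, Finset.mem_filter.2 ⟨ha, h1⟩⟩
  have hne' : s.Nonempty := ⟨a, ha⟩
  set u := (s.filter (fun x => x < c)).max' hne with hu
  set v := s.max' hne' with hv
  have hu1 : u ∈ s.filter (fun x => x < c) := Finset.max'_mem _ _
  have hv1 : v ∈ s := Finset.max'_mem _ _
  rw [Finset.mem_filter] at hu1
  have huv : u ≠ v := by
    have : b ≤ v := Finset.le_max' _ _ hb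
    omega
  have hu2 : u + 1 ∉ s := by
    intro h3
    by_cases h4 : u + 1 < c
    · have := Finset.le_max' (s.filter (fun x => x < c)) (u + 1) (Finset.mem_filter.2 ⟨h3, h4⟩)
      omega
    · have : u + 1 = c := by omega
      rw [this] at h3
      exact hc h3
  have hv2 : v + 1 ∉ s := by
    intro h3
    have := Finset.le_max' s _ h3
    omega
  have hsub : ({u, v} : Finset ℤ) ⊆ s.filter (fun a => a + 1 ∉ s) := by
    intro x hx
    simp only [Finset.mem_insert, Finset.mem_singleton] at hx
    rcases hx with rfl | rfl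
    · exact Finset.mem_filter.2 ⟨hu1.1, hu2⟩
    · exact Finset.mem_filter.2 ⟨hv1, hv2⟩
  have := Finset.card_le_card hsub
  rwa [Finset.card_pair huv] at this

/-- the rows that occur -/
noncomputable def R (P : Finset Cell) : Finset ℤ := P.image Prod.snd
/-- the columns that occur -/
noncomputable def C (P : Finset Cell) : Finset ℤ := P.image Prod.fst

/-- swap of the coordinates -/
def sw (P : Finset Cell) : Finset Cell := P.image Prod.swap

theorem mem_sw {P : Finset Cell} {a b : ℤ} : (a, b) ∈ sw P ↔ (b, a) ∈ P := by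
  simp only [sw, Finset.mem_image, Prod.exists, Prod.swap_prod_mk, Prod.mk.injEq]
  constructor
  · rintro ⟨x, y, h, rfl, rfl⟩; exact h
  · intro h; exact ⟨b, a, h, rfl, rfl⟩

theorem card_sw (P : Finset Cell) : (sw P).card = P.card :=
  Finset.card_image_of_injective _ Prod.swap_injective

/-- number of cells with a right neighbour -/
theorem horizontal (P : Finset Cell) (h : ∀ b, (row P b).Nonempty → ¬ (row P b).OrdConnected) :
    (P.filter (fun c => (c.1 + 1, c.2) ∈ P)).card + 2 * (R P).card ≤ P.card := by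
  have h1 : (P.filter (fun c => (c.1 + 1, c.2) ∈ P)).card +
      (P.filter (fun c => (c.1 + 1, c.2) ∉ P)).card = P.card := by
    exact Finset.card_filter_add_card_filter_not _
  have h2 : 2 * (R P).card ≤ (P.filter (fun c => (c.1 + 1, c.2) ∉ P)).card := by
    rw [Finset.card_eq_sum_card_fiberwise (f := Prod.snd) (t := R P)]
    · rw [mul_comm, ← smul_eq_mul, ← Finset.sum_const]
      apply Finset.sum_le_sum
      intro b hb
      obtain ⟨⟨a, b'⟩, hc, rfl⟩ := Finset.mem_image.1 hb
      simp only
      let s : Finset ℤ := (P.filter (fun c => c.2 = b')).image Prod.fst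
      have hs : ∀ x, x ∈ s ↔ (x, b') ∈ P := by
        intro x
        simp only [s, Finset.mem_image, Finset.mem_filter, Prod.exists]
        constructor
        · rintro ⟨x', y', ⟨h, rfl⟩, rfl⟩; exact h
        · intro h; exact ⟨x, b', ⟨h, rfl⟩, rfl⟩
      have hrow : (s : Set ℤ) = row P b' := by
        ext x
        rw [Finset.mem_coe, hs]
        rfl
      have h3 : ¬ (s : Set ℤ).OrdConnected := by
        rw [hrow]
        exact h b' ⟨a, hc⟩
      have h4 := two_ends s h3
      refine h4.trans ?_
      have h5 : (s.filter (fun a => a + 1 ∉ s)).image (fun a => (a, b')) ⊆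
          (P.filter (fun c => (c.1 + 1, c.2) ∉ P)).filter (fun c => c.2 = b') := by
        intro c hc
        obtain ⟨x, hx, rfl⟩ := Finset.mem_image.1 hc
        rw [Finset.mem_filter, hs, hs] at hx
        simp only [Finset.mem_filter, and_true]
        exact hx
      have h6 := Finset.card_le_card h5
      rwa [Finset.card_image_of_injective _ (fun x y h => by simpa using h)] at h6
    · intro c hc
      rw [Finset.mem_coe, Finset.mem_filter] at hc
      exact Finset.mem_image_of_mem _ hc.1
  omega

theorem vertical (P : Finset Cell)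
    (h : ∀ a, (column P a).Nonempty → ¬ (column P a).OrdConnected) :
    (P.filter (fun c => (c.1, c.2 + 1) ∈ P)).card + 2 * (C P).card ≤ P.card := by
  have h1 := horizontal (sw P) (by
    intro b hb
    have : row (sw P) b = column P b := by
      ext x
      exact mem_sw
    rw [this] at hb ⊢
    exact h b hb)
  have h2 : R (sw P) = C P := by
    rw [R, sw, Finset.image_image]
    rfl
  have h3 : ((sw P).filter (fun c => (c.1 + 1, c.2) ∈ sw P)).card =
      (P.filter (fun c => (c.1, c.2 + 1) ∈ P)).card := by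
    have : (sw P).filter (fun c => (c.1 + 1, c.2) ∈ sw P) =
        sw (P.filter (fun c => (c.1, c.2 + 1) ∈ P)) := by
      ext ⟨a, b⟩
      rw [Finset.mem_filter, mem_sw, mem_sw, mem_sw, Finset.mem_filter]
    rw [this, card_sw]
  rw [h2, h3, card_sw] at h1
  exact h1

/-- The number of edges of the adjacency graph. -/
theorem edges_le (P : Finset Cell) :
    Nat.card (grid.induce (P : Set Cell)).edgeSet ≤
      (P.filter (fun c => (c.1 + 1, c.2) ∈ P)).card +
        (P.filter (fun c => (c.1, c.2 + 1) ∈ P)).card := by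
  classical
  let A := P.filter (fun c => (c.1 + 1, c.2) ∈ P)
  let B := P.filter (fun c => (c.1, c.2 + 1) ∈ P)
  have hA : ∀ c : A, ((c : Cell) ∈ P ∧ ((c : Cell).1 + 1, (c : Cell).2) ∈ P) := fun c =>
    Finset.mem_filter.1 c.2
  have hB : ∀ c : B, ((c : Cell) ∈ P ∧ ((c : Cell).1, (c : Cell).2 + 1) ∈ P) := fun c =>
    Finset.mem_filter.1 c.2
  let f : A ⊕ B → (grid.induce (P : Set Cell)).edgeSet := fun x =>
    match x with
    | Sum.inl c => ⟨s(⟨c, (hA c).1⟩, ⟨((c : Cell).1 + 1, (c : Cell).2), (hA c).2⟩), by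
        rw [SimpleGraph.mem_edgeSet]
        right
        simp⟩
    | Sum.inr c => ⟨s(⟨c, (hB c).1⟩, ⟨((c : Cell).1, (c : Cell).2 + 1), (hB c).2⟩), by
        rw [SimpleGraph.mem_edgeSet]
        left
        simp⟩
  have hf : Function.Surjective f := by
    rintro ⟨e, he⟩
    induction e using Sym2.inductionOn with
    | hf u v =>
      obtain ⟨⟨a, b⟩, hu⟩ := u
      obtain ⟨⟨a', b'⟩, hv⟩ := v
      have hadj : (a = a' ∧ |b - b'| = 1) ∨ (b = b' ∧ |a - a'| = 1) := he
      rcases hadj with ⟨rfl, h⟩ | ⟨rfl, h⟩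
      · rcases (abs_eq one_pos.le).1 h with h | h
        · refine ⟨Sum.inr ⟨(a, b'), ?_⟩, ?_⟩
          · have : b' + 1 = b := by omega
            simp only [B, Finset.mem_filter, this]
            exact ⟨hv, hu⟩
          · apply Subtype.ext
            simp only [f]
            rw [Sym2.eq_swap]
            congr 2
            simp only [Prod.mk.injEq, true_and]
            omega
        · refine ⟨Sum.inr ⟨(a, b), ?_⟩, ?_⟩
          · have : b + 1 = b' := by omega
            simp only [B, Finset.mem_filter, this]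
            exact ⟨hu, hv⟩
          · apply Subtype.ext
            simp only [f]
            congr 2
            simp only [Prod.mk.injEq, true_and]
            omega
      · rcases (abs_eq one_pos.le).1 h with h | h
        · refine ⟨Sum.inl ⟨(a', b), ?_⟩, ?_⟩
          · have : a' + 1 = a := by omega
            simp only [A, Finset.mem_filter, this]
            exact ⟨hv, hu⟩
          · apply Subtype.ext
            simp only [f]
            rw [Sym2.eq_swap]
            congr 2
            simp only [Prod.mk.injEq, and_true]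
            omega
        · refine ⟨Sum.inl ⟨(a, b), ?_⟩, ?_⟩
          · have : a + 1 = a' := by omega
            simp only [A, Finset.mem_filter, this]
            exact ⟨hu, hv⟩
          · apply Subtype.ext
            simp only [f]
            congr 2
            simp only [Prod.mk.injEq, and_true]
            omega
  have h1 := Nat.card_le_card_of_surjective f hf
  have h2 : Nat.card (A ⊕ B) = A.card + B.card := by
    rw [Nat.card_sum, Nat.card_eq_finsetCard, Nat.card_eq_finsetCard]
  rwa [h2] at h1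

/-- Counting edges: `2 (w + h) ≤ n + 1`. -/
theorem bound_edges {P : Finset Cell} (hP : IsPolyomino P) (hS : PropertyS P) :
    2 * ((C P).card + (R P).card) ≤ P.card + 1 := by
  have h1 := horizontal P hS.1
  have h2 := vertical P hS.2
  have h3 := edges_le P
  have h4 : Nat.card (P : Set Cell) ≤
      Nat.card (grid.induce (P : Set Cell)).edgeSet + 1 :=
    SimpleGraph.Connected.card_vert_le_card_edgeSet_add_one hP
  have h5 : Nat.card (P : Set Cell) = P.card := by
    simp
  omega

/-! ### Projections of connected sets are intervals -/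

theorem crossing {P : Finset Cell} (hP : IsPolyomino P) (f : Cell → ℤ)
    (hf : ∀ u v, grid.Adj u v → |f u - f v| ≤ 1) {u v : Cell} (hu : u ∈ P) (hv : v ∈ P) {c : ℤ}
    (h1 : f u < c) (h2 : c < f v) : ∃ x ∈ P, f x = c := by
  by_contra hcon
  push Not at hcon
  obtain ⟨p⟩ := hP.preconnected ⟨u, hu⟩ ⟨v, hv⟩
  have key : ∀ {a b : (P : Set Cell)} (p : (grid.induce (P : Set Cell)).Walk a b),
      f a < c → f b < c := by
    intro a b p
    induction p with
    | nil => exact id
    | @cons a b' b hab p ih =>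
      intro ha
      apply ih
      have h3 := hf _ _ hab
      have h4 := hcon b' b'.2
      rw [abs_le] at h3
      simp only [Function.Embedding.subtype_apply] at h3
      omega
  have h3 := key p h1
  exact absurd h2 (not_lt.2 h3.le)

/-- Counting empty cells: `n + h + 2 ≤ w h`. -/
theorem bound_cells {P : Finset Cell} (hP : IsPolyomino P) (hS : PropertyS P) :
    P.card + (R P).card + 2 ≤ (C P).card * (R P).card := by
  classical
  obtain ⟨⟨x0, hx0⟩⟩ := hP.nonempty
  have hCne : (C P).Nonempty := ⟨x0.1, Finset.mem_image_of_mem _ hx0⟩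
  set l := (C P).min' hCne with hl
  set r := (C P).max' hCne with hr
  have hlC : l ∈ C P := Finset.min'_mem _ _
  have hrC : r ∈ C P := Finset.max'_mem _ _
  -- a gap in every row, strictly between the extreme columns
  have hrow : ∀ b, ∃ c, b ∈ R P → (c, b) ∉ P ∧ c ∈ C P ∧ l < c ∧ c < r := by
    intro b
    by_cases hb : b ∈ R P
    · obtain ⟨⟨a, b'⟩, hab, rfl⟩ := Finset.mem_image.1 hb
      obtain ⟨a1, c, a2, h1, h2, h3, h4, h5⟩ := gap_of (hS.1 b' ⟨a, hab⟩)
      have h1' : (a1, b') ∈ P := h1
      have h3' : (a2, b') ∈ P := h3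
      refine ⟨c, fun _ => ⟨h2, ?_, ?_, ?_⟩⟩
      · obtain ⟨x, hx, hxc⟩ := crossing hP Prod.fst (by
          intro u v huv
          rcases huv with ⟨h, -⟩ | ⟨-, h⟩
          · rw [h]; simp
          · exact h.le) h1' h3' h4 h5
        exact Finset.mem_image.2 ⟨x, hx, hxc⟩
      · have : l ≤ a1 := Finset.min'_le _ _ (Finset.mem_image_of_mem Prod.fst h1')
        omega
      · have : a2 ≤ r := Finset.le_max' _ _ (Finset.mem_image_of_mem Prod.fst h3')
        omega
    · exact ⟨0, fun h => absurd h hb⟩
  choose g hg using hrow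
  -- a gap in every column
  have hcol : ∀ a, ∃ d, a ∈ C P → (a, d) ∉ P ∧ d ∈ R P := by
    intro a
    by_cases ha : a ∈ C P
    · obtain ⟨⟨a', b⟩, hab, rfl⟩ := Finset.mem_image.1 ha
      obtain ⟨b1, d, b2, h1, h2, h3, h4, h5⟩ := gap_of (hS.2 a' ⟨b, hab⟩)
      have h1' : (a', b1) ∈ P := h1
      have h3' : (a', b2) ∈ P := h3
      refine ⟨d, fun _ => ⟨h2, ?_⟩⟩
      obtain ⟨x, hx, hxc⟩ := crossing hP Prod.snd (by
          intro u v huv
          rcases huv with ⟨-, h⟩ | ⟨h, -⟩
          · exact h.le
          · rw [h]; simp) h1' h3' h4 h5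
      exact Finset.mem_image.2 ⟨x, hx, hxc⟩
    · exact ⟨0, fun h => absurd h ha⟩
  choose k hk using hcol
  have hlr : l < r := by
    have hb : x0.2 ∈ R P := Finset.mem_image_of_mem _ hx0
    have := hg _ hb
    omega
  -- the empty cells
  let E : Finset Cell := (R P).image (fun b => (g b, b)) ∪ {(l, k l), (r, k r)}
  have hEsub : E ⊆ (C P ×ˢ R P) \ P := by
    intro x hx
    simp only [E, Finset.mem_union, Finset.mem_image, Finset.mem_insert,
      Finset.mem_singleton] at hx
    rw [Finset.mem_sdiff, Finset.mem_product]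
    rcases hx with ⟨b, hb, rfl⟩ | rfl | rfl
    · exact ⟨⟨(hg b hb).2.1, hb⟩, (hg b hb).1⟩
    · exact ⟨⟨hlC, (hk l hlC).2⟩, (hk l hlC).1⟩
    · exact ⟨⟨hrC, (hk r hrC).2⟩, (hk r hrC).1⟩
  have hEcard : E.card = (R P).card + 2 := by
    have hdis : Disjoint ((R P).image (fun b => (g b, b))) {(l, k l), (r, k r)} := by
      rw [Finset.disjoint_left]
      intro x hx hx'
      obtain ⟨b, hb, rfl⟩ := Finset.mem_image.1 hx
      simp only [Finset.mem_insert, Finset.mem_singleton, Prod.mk.injEq] at hx'
      have := hg b hb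
      omega
    rw [Finset.card_union_of_disjoint hdis,
      Finset.card_image_of_injective _ (fun a b h => (Prod.mk.inj h).2), Finset.card_pair]
    intro h
    have := (Prod.mk.inj h).1
    omega
  have hPsub : P ⊆ C P ×ˢ R P := by
    intro x hx
    exact Finset.mem_product.2 ⟨Finset.mem_image_of_mem _ hx, Finset.mem_image_of_mem _ hx⟩
  have h1 := Finset.card_le_card hEsub
  have h2 := Finset.card_sdiff_add_card_eq_card hPsub
  rw [Finset.card_product] at h2
  omega

theorem lower {P : Finset Cell} (hP : IsPolyomino P) (hS : PropertyS P) : 21 ≤ P.card := by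
  have h1 := bound_edges hP hS
  have h2 := bound_cells hP hS
  by_contra hlt
  have hw : (C P).card ≤ 10 := by omega
  have hh : (R P).card ≤ 10 := by omega
  generalize (C P).card = w at *
  generalize (R P).card = h at *
  interval_cases w <;> omega

/-! ### The example -/

/-- The 21-omino, rows from bottom to top. -/
def P21 : Finset Cell :=
  {(0, 0), (2, 0), (3, 0), (4, 0),
   (0, 1), (1, 1), (3, 1),
   (0, 2), (2, 2), (3, 2), (4, 2),
   (0, 3), (1, 3), (2, 3), (4, 3),
   (1, 4), (3, 4), (4, 4),
   (0, 5), (1, 5), (3, 5)}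

def adjb (u v : Cell) : Prop :=
  (u.1 = v.1 ∧ |u.2 - v.2| = 1) ∨ (u.2 = v.2 ∧ |u.1 - v.1| = 1)

instance (u v : Cell) : Decidable (adjb u v) := by unfold adjb; infer_instance

theorem P21_polyomino : IsPolyomino P21 := by
  let Rch : Cell → Prop := fun c => ∃ h : c ∈ (P21 : Set Cell),
    (grid.induce (P21 : Set Cell)).Reachable ⟨(0, 5), by decide⟩ ⟨c, h⟩
  have r05 : Rch (0, 5) := ⟨by decide, SimpleGraph.Reachable.refl _⟩
  have nxt : ∀ u v : Cell, Rch u → v ∈ P21 → adjb u v → Rch v := by
    rintro u v ⟨hu, h⟩ hv huv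
    refine ⟨hv, h.trans (SimpleGraph.Adj.reachable ?_)⟩
    exact huv
  have r15 : Rch (1, 5) := nxt (0, 5) (1, 5) r05 (by decide) (by decide)
  have r14 : Rch (1, 4) := nxt (1, 5) (1, 4) r15 (by decide) (by decide)
  have r13 : Rch (1, 3) := nxt (1, 4) (1, 3) r14 (by decide) (by decide)
  have r23 : Rch (2, 3) := nxt (1, 3) (2, 3) r13 (by decide) (by decide)
  have r03 : Rch (0, 3) := nxt (1, 3) (0, 3) r13 (by decide) (by decide)
  have r22 : Rch (2, 2) := nxt (2, 3) (2, 2) r23 (by decide) (by decide)
  have r02 : Rch (0, 2) := nxt (0, 3) (0, 2) r03 (by decide) (by decide)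
  have r32 : Rch (3, 2) := nxt (2, 2) (3, 2) r22 (by decide) (by decide)
  have r01 : Rch (0, 1) := nxt (0, 2) (0, 1) r02 (by decide) (by decide)
  have r42 : Rch (4, 2) := nxt (3, 2) (4, 2) r32 (by decide) (by decide)
  have r31 : Rch (3, 1) := nxt (3, 2) (3, 1) r32 (by decide) (by decide)
  have r11 : Rch (1, 1) := nxt (0, 1) (1, 1) r01 (by decide) (by decide)
  have r00 : Rch (0, 0) := nxt (0, 1) (0, 0) r01 (by decide) (by decide)
  have r43 : Rch (4, 3) := nxt (4, 2) (4, 3) r42 (by decide) (by decide)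
  have r30 : Rch (3, 0) := nxt (3, 1) (3, 0) r31 (by decide) (by decide)
  have r44 : Rch (4, 4) := nxt (4, 3) (4, 4) r43 (by decide) (by decide)
  have r40 : Rch (4, 0) := nxt (3, 0) (4, 0) r30 (by decide) (by decide)
  have r20 : Rch (2, 0) := nxt (3, 0) (2, 0) r30 (by decide) (by decide)
  have r34 : Rch (3, 4) := nxt (4, 4) (3, 4) r44 (by decide) (by decide)
  have r35 : Rch (3, 5) := nxt (3, 4) (3, 5) r34 (by decide) (by decide)
  have hall : ∀ c ∈ P21, Rch c := by
    intro c hc
    simp only [P21, Finset.mem_insert, Finset.mem_singleton] at hc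
    rcases hc with rfl | rfl | rfl | rfl | rfl | rfl | rfl | rfl | rfl | rfl | rfl | rfl | rfl |
      rfl | rfl | rfl | rfl | rfl | rfl | rfl | rfl <;> assumption
  rw [IsPolyomino, SimpleGraph.connected_iff]
  refine ⟨?_, ⟨⟨(0, 5), by decide⟩⟩⟩
  rintro ⟨u, hu⟩ ⟨v, hv⟩
  obtain ⟨_, h1⟩ := hall u hu
  obtain ⟨_, h2⟩ := hall v hv
  exact h1.symm.trans h2

theorem P21_S : PropertyS P21 := by
  have hr : ∀ c ∈ P21, ∃ x ∈ P21, ∃ y ∈ P21, x.2 = c.2 ∧ y.2 = c.2 ∧
      ∃ g ∈ ({1, 2, 3} : Finset ℤ), x.1 < g ∧ g < y.1 ∧ (g, c.2) ∉ P21 := by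
    decide
  have hc : ∀ c ∈ P21, ∃ x ∈ P21, ∃ y ∈ P21, x.1 = c.1 ∧ y.1 = c.1 ∧
      ∃ g ∈ ({1, 2, 3, 4} : Finset ℤ), x.2 < g ∧ g < y.2 ∧ (c.1, g) ∉ P21 := by
    decide
  constructor
  · rintro b ⟨a, hab⟩ hoc
    obtain ⟨x, hx, y, hy, e1, e2, g, -, h1, h2, h3⟩ := hr _ hab
    simp only at e1 e2 h3
    apply h3
    have hx' : x.1 ∈ row P21 b := by
      show (x.1, b) ∈ P21
      rw [← e1]; exact hx
    have hy' : y.1 ∈ row P21 b := by
      show (y.1, b) ∈ P21
      rw [← e2]; exact hy
    exact hoc.out hx' hy' ⟨h1.le, h2.le⟩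
  · rintro a ⟨b, hab⟩ hoc
    obtain ⟨x, hx, y, hy, e1, e2, g, -, h1, h2, h3⟩ := hc _ hab
    simp only at e1 e2 h3
    apply h3
    have hx' : x.2 ∈ column P21 a := by
      show (a, x.2) ∈ P21
      rw [← e1]; exact hx
    have hy' : y.2 ∈ column P21 a := by
      show (a, y.2) ∈ P21
      rw [← e2]; exact hy
    exact hoc.out hx' hy' ⟨h1.le, h2.le⟩

/-- The least size of a polyomino with property (S) is 21. -/
theorem result :
    IsLeast {n : ℕ | ∃ P : Finset Cell, P.card = n ∧ IsPolyomino P ∧ PropertyS P} 21 := by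
  constructor
  · exact ⟨P21, by decide, P21_polyomino, P21_S⟩
  · rintro n ⟨P, rfl, hP, hS⟩
    exact lower hP hS

end Pool.Agent.Results.MP_ae2f9f_co.LeastSize
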